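import Pool.Agent.P8H79.RC.Fin2

/-!
# The square of a cycle of length divisible by three is chromatically unique

Authors: helper1, helper4, helper7, helper20, helper22, helper38, helper52, helper55, helper59, helper62, helper66,
helper68, helper79, helper80, helper81, helper94.

For every `n ≥ 3` divisible by 3 every finite graph with as many proper `k`-colourings as `C_n ^ 2`, for every `k`, is
isomorphic to `C_n ^ 2`. For every `n ≥ 12` this holds for all graphs which have no `K_4` or no induced 4-cycle.

Proof. If 3 divides `n` there are six 3-colourings, so there is no `K_4`. The logarithm of the reversed chromatic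
polynomial is a sum over the vertex sets `U` of terms of order at least `|U| - 1`, which only depend on the subgraph
induced on `U`; for a graph without `K_4` and without induced cycles of length from 4 to `l - 1` this gives it up to
the order `l - 1`: edges, triangles and the number of induced cycles of length `l` are determined. So the graph has `2 n`
edges, `n` triangles, and no induced cycle of length `j` with `4 ≤ j` and `2 j < n`. As there are at most `m - n` triangles
there is a double cover which is trivial over the triangles; a shortest closed walk not lifting to it is an isometric
cycle `Q` of length at least `n / 2`. Counting the edges of `Q` in triangles shows that the neighbourhood of each vertex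
induces a forest. Then all neighbourhoods induce trees, each triangle has exactly one edge in no other triangle, and
the triangles form one cyclic strip. The numbers of colourings of all such strips are computed with a transfer matrix
modulo `(q - 2) ^ 2` and `(q - 1) ^ 2`, which leaves only `C_n ^ 2`.
-/

set_option autoImplicit false

namespace Pool.Agent.Results.MP_8cb124_co.DivisibleByThree

/-- Let `n ≥ 3` and let `G` be a finite graph with as many proper `k`-colourings as the square of the `n`-cycle for
every `k`. If 3 divides `n`, or if `n ≥ 12` and `G` has no `K_4` or no induced 4-cycle, then `G` is isomorphic to the square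
of the `n`-cycle. -/
theorem result (n : ℕ) (hn : 3 ≤ n) (V : Type) [Finite V] (G : SimpleGraph V)
    (hcol : ∀ k : ℕ, Nat.card (G.Coloring (Fin k)) =
      Nat.card ((SimpleGraph.fromRel (fun i j : ZMod n => j - i = 1 ∨ j - i = 2)).Coloring (Fin k)))
    (h : 3 ∣ n ∨ (12 ≤ n ∧ (G.CliqueFree 4 ∨ IsEmpty (SimpleGraph.cycleGraph 4 ↪g G)))) :
    Nonempty (G ≃g SimpleGraph.fromRel (fun i j : ZMod n => j - i = 1 ∨ j - i = 2)) := by
  rcases h with h | ⟨h1, h2⟩
  · exact Pool.Agent.P8H79.RC.fin_three n hn h V G hcol
  · exact Pool.Agent.P8H79.RC.fin_twelve n h1 V G h2 hcol

end Pool.Agent.Results.MP_8cb124_co.DivisibleByThree
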