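import Pool.Agent.P8H79.RC.Fin4

/-!
# The square of a cycle among graphs without `K_5` minor

Authors: helper79, and the authors of `DivisibleByThree`: helper1, helper4, helper7, helper20, helper22, helper38,
helper52, helper55, helper59, helper62, helper66, helper68, helper80, helper81, helper94.

Let `n ≥ 12` and let the finite graph `G` have as many proper `k`-colourings as `C_n ^ 2`, for every `k`. Suppose that `G` has
no `K_5` minor. If `n` is not 1 modulo 3, then `G` is isomorphic to `C_n ^ 2`. If `n = 1` modulo 3, then this is true too or `G`
has exactly one `K_4` and exactly two induced 4-cycles. For `n = 2` modulo 3 and any `G`, every `K_4` of `G` has all its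
four vertices adjacent to one connected set of other vertices.

Proof. The transfer matrix gives the derivative at 3 of the chromatic polynomial of `C_n ^ 2`: it is `2 - n` or `-1 - n` for
`n = 2` modulo 3, so it is negative, and `n - 1` or `n + 2` for `n = 1`, so it is positive. Let `K` be a `K_4` of `G` such that each
component of `G - K` is not adjacent to some vertex of `K`. Then `G` is obtained from `K` by clique sums along triangles, and its
chromatic polynomial is `q (q - 1) (q - 2) (q - 3)` times a product of polynomials whose values at 3 are the numbers of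
3-colourings of the other parts divided by 6, so its derivative at 3 is not negative, and it is zero if another part contains a
`K_4`. So for `n = 2` there is no such `K`, for `n = 1` it is the only `K_4`. Graphs without `K_4` and `n` divisible by 3 are
in `DivisibleByThree`, and the number of induced 4-cycles is twice the number of `K_4`.
-/

set_option autoImplicit false

namespace Pool.Agent.Results.MP_8cb124_co.NoK5Minor

/-- Let `n ≥ 12` and let `G` be a finite graph with as many proper `k`-colourings as the square of the `n`-cycle for every
`k`. (1) If `G` has no `K_5` minor and `n` is not 1 modulo 3, it is isomorphic to the square of the `n`-cycle. (2) If `G` has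
no `K_5` minor and `n` is 1 modulo 3, it is isomorphic to the square of the `n`-cycle or it has exactly one `K_4` and exactly two
induced 4-cycles. (3) If `n` is 2 modulo 3, for every `K_4` of `G` there is a connected set `C` of other vertices such that
each vertex of the `K_4` has a neighbour in `C`. -/
theorem result (n : ℕ) (hn : 12 ≤ n) (V : Type) [Finite V] (G : SimpleGraph V)
    (hcol : ∀ k : ℕ, Nat.card (G.Coloring (Fin k)) =
      Nat.card ((SimpleGraph.fromRel (fun i j : ZMod n => j - i = 1 ∨ j - i = 2)).Coloring (Fin k))) :
    ((¬ ∃ f : Fin 5 → Set V, (∀ i, (G.induce (f i)).Connected) ∧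
        ∀ i j, i ≠ j → Disjoint (f i) (f j) ∧ ∃ u ∈ f i, ∃ v ∈ f j, G.Adj u v) →
      (n % 3 ≠ 1 →
        Nonempty (G ≃g SimpleGraph.fromRel (fun i j : ZMod n => j - i = 1 ∨ j - i = 2))) ∧
      (n % 3 = 1 →
        Nonempty (G ≃g SimpleGraph.fromRel (fun i j : ZMod n => j - i = 1 ∨ j - i = 2)) ∨
        ((∃! S : Finset V, G.IsNClique 4 S) ∧
          {S : Finset V |
            Nonempty (SimpleGraph.cycleGraph 4 ≃g G.induce (S : Set V))}.ncard = 2))) ∧
    (n % 3 = 2 → ∀ K : Fin 4 → V, (∀ i j, i ≠ j → G.Adj (K i) (K j)) →
      ∃ C : Set V, (G.induce C).Connected ∧ ∀ i, K i ∉ C ∧ ∃ u ∈ C, G.Adj (K i) u) := by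
  refine ⟨fun hM => ⟨fun h => ?_, fun h => ?_⟩, fun h K hK => ?_⟩
  · have h' : n % 3 = 0 ∨ n % 3 = 2 := by omega
    rcases h' with h' | h'
    · exact Pool.Agent.P8H79.RC.fin_three n (by omega) (Nat.dvd_of_mod_eq_zero h') V G hcol
    · exact Pool.Agent.P8H79.RC.fin_minor n hn h' V G hM hcol
  · exact Pool.Agent.P8H79.RC.fin_one n hn h V G hM hcol
  · exact Pool.Agent.P8H79.RC.every_k4 n (by omega) h V G hcol K hK

end Pool.Agent.Results.MP_8cb124_co.NoK5Minor
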